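import Mathlib

/-!
# Normal subgroups of `SL₂(ℤ_p)`

Let `p` be any prime and `G = SL₂(ℤ_p)`, an uncountable compact metrizable non-archimedean group.
Every normal subgroup of the abstract group `G` (closed or not, Borel or not) is either finite or
open of finite index.  So `G` has no normal subgroup at all which is uncountable and of uncountable
index.
-/

set_option autoImplicit false
set_option linter.all false

open Matrix Topology

namespace Pool.Agent.Results.MP_847604_al.SL2Zp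

variable {A : Type*} [CommRing A]

/-- the group `SL₂` -/
abbrev SL (A : Type*) [CommRing A] : Type _ := Matrix.SpecialLinearGroup (Fin 2) A

/-- the upper elementary matrix -/
def up (x : A) : SL A := ⟨!![1, x; 0, 1], by simp [Matrix.det_fin_two]⟩

/-- the lower elementary matrix -/
def lo (x : A) : SL A := ⟨!![1, 0; x, 1], by simp [Matrix.det_fin_two]⟩

/-- the Weyl element -/
def we : SL A := ⟨!![0, 1; -1, 0], by simp [Matrix.det_fin_two]⟩

/-- the diagonal matrix of a unit -/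
def di (u : Aˣ) : SL A := ⟨!![(u : A), 0; 0, ((u⁻¹ : Aˣ) : A)], by simp [Matrix.det_fin_two]⟩

/-- upper triangular matrices -/
def tr (u : Aˣ) (z : A) : SL A :=
  ⟨!![(u : A), z; 0, ((u⁻¹ : Aˣ) : A)], by simp [Matrix.det_fin_two]⟩

theorem ext2 {g h : SL A} (h00 : g 0 0 = h 0 0) (h01 : g 0 1 = h 0 1) (h10 : g 1 0 = h 1 0)
    (h11 : g 1 1 = h 1 1) : g = h := by
  ext i j
  fin_cases i <;> fin_cases j <;> assumption

theorem det2 (g : SL A) : g 0 0 * g 1 1 - g 0 1 * g 1 0 = 1 := by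
  have := g.det_coe
  rwa [Matrix.det_fin_two] at this

theorem mul00 (g h : SL A) : (g * h) 0 0 = g 0 0 * h 0 0 + g 0 1 * h 1 0 := by
  simp [Matrix.mul_apply, Fin.sum_univ_two]
theorem mul01 (g h : SL A) : (g * h) 0 1 = g 0 0 * h 0 1 + g 0 1 * h 1 1 := by
  simp [Matrix.mul_apply, Fin.sum_univ_two]
theorem mul10 (g h : SL A) : (g * h) 1 0 = g 1 0 * h 0 0 + g 1 1 * h 1 0 := by
  simp [Matrix.mul_apply, Fin.sum_univ_two]
theorem mul11 (g h : SL A) : (g * h) 1 1 = g 1 0 * h 0 1 + g 1 1 * h 1 1 := by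
  simp [Matrix.mul_apply, Fin.sum_univ_two]

theorem inv00 (g : SL A) : (g⁻¹ : SL A) 0 0 = g 1 1 := by
  simp [Matrix.SpecialLinearGroup.coe_inv, Matrix.adjugate_fin_two]
theorem inv01 (g : SL A) : (g⁻¹ : SL A) 0 1 = - g 0 1 := by
  simp [Matrix.SpecialLinearGroup.coe_inv, Matrix.adjugate_fin_two]
theorem inv10 (g : SL A) : (g⁻¹ : SL A) 1 0 = - g 1 0 := by
  simp [Matrix.SpecialLinearGroup.coe_inv, Matrix.adjugate_fin_two]
theorem inv11 (g : SL A) : (g⁻¹ : SL A) 1 1 = g 0 0 := by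
  simp [Matrix.SpecialLinearGroup.coe_inv, Matrix.adjugate_fin_two]

@[simp] theorem up00 (x : A) : (up x : SL A) 0 0 = 1 := rfl
@[simp] theorem up01 (x : A) : (up x : SL A) 0 1 = x := rfl
@[simp] theorem up10 (x : A) : (up x : SL A) 1 0 = 0 := rfl
@[simp] theorem up11 (x : A) : (up x : SL A) 1 1 = 1 := rfl
@[simp] theorem lo00 (x : A) : (lo x : SL A) 0 0 = 1 := rfl
@[simp] theorem lo01 (x : A) : (lo x : SL A) 0 1 = 0 := rfl
@[simp] theorem lo10 (x : A) : (lo x : SL A) 1 0 = x := rfl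
@[simp] theorem lo11 (x : A) : (lo x : SL A) 1 1 = 1 := rfl
@[simp] theorem we00 : (we : SL A) 0 0 = 0 := rfl
@[simp] theorem we01 : (we : SL A) 0 1 = 1 := rfl
@[simp] theorem we10 : (we : SL A) 1 0 = -1 := rfl
@[simp] theorem we11 : (we : SL A) 1 1 = 0 := rfl
@[simp] theorem tr00 (u : Aˣ) (z : A) : (tr u z : SL A) 0 0 = u := rfl
@[simp] theorem tr01 (u : Aˣ) (z : A) : (tr u z : SL A) 0 1 = z := rfl
@[simp] theorem tr10 (u : Aˣ) (z : A) : (tr u z : SL A) 1 0 = 0 := rfl
@[simp] theorem tr11 (u : Aˣ) (z : A) : (tr u z : SL A) 1 1 = ((u⁻¹ : Aˣ) : A) := rfl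

theorem up_mul (x y : A) : up x * up y = up (x + y) := by
  apply ext2 <;> simp only [mul00, mul01, mul10, mul11, up00, up01, up10, up11] <;> ring

theorem up_inv (x : A) : (up x)⁻¹ = up (-x) := by
  apply ext2 <;> simp only [inv00, inv01, inv10, inv11, up00, up01, up10, up11]
  ring

/-- conjugation of the upper elementary matrices by triangular ones -/
theorem tr_conj (u : Aˣ) (z x : A) : tr u z * up x * (tr u z)⁻¹ = up ((u : A) ^ 2 * x) := by
  have hu : (u : A) * ((u⁻¹ : Aˣ) : A) = 1 := u.mul_inv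
  apply ext2 <;> simp only [mul00, mul01, mul10, mul11, inv00, inv01, inv10, inv11, up00, up01,
    up10, up11, tr00, tr01, tr10, tr11]
  · linear_combination hu
  · ring
  · ring
  · linear_combination hu

theorem we_conj (x : A) : we * up x * we⁻¹ = lo (-x) := by
  apply ext2 <;> simp only [mul00, mul01, mul10, mul11, inv00, inv01, inv10, inv11, up00, up01,
    up10, up11, lo00, lo01, lo10, lo11, we00, we01, we10, we11] <;> ring

variable {N : Subgroup (SL A)}

/-- If `N` is normal and contains a matrix `g` with nonzero lower left entry `c` then it contains a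
nontrivial upper elementary matrix, provided that there is a unit `x` with `c ∣ x ^ 2 - 1`. -/
theorem exists_up (hN : N.Normal) {g : SL A} (hg : g ∈ N) (x : Aˣ) (y : A)
    (hy : (x : A) ^ 2 - 1 = g 1 0 * y) : up (((x⁻¹ : Aˣ) : A) ^ 4 - 1) ∈ N := by
  have hx : (x : A) * ((x⁻¹ : Aˣ) : A) = 1 := x.mul_inv
  have hd := det2 g
  -- the conjugating matrix
  set k : SL A := tr x⁻¹ (g 0 0 * y * ((x⁻¹ : Aˣ) : A)) with hk
  set n : SL A := (k * g * k⁻¹)⁻¹ * g with hn
  have hnN : n ∈ N := N.mul_mem (N.inv_mem (hN.conj_mem g hg k)) hg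
  have hnn : ∃ z, n = tr (x⁻¹ ^ 2) z := by
    refine ⟨n 0 1, ?_⟩
    set a := g 0 0 with ha
    set b := g 0 1 with hb
    set c := g 1 0 with hc
    set d := g 1 1 with hdd
    set X : A := (x : A) with hX
    set X' : A := ((x⁻¹ : Aˣ) : A) with hX'
    have key : ((x⁻¹)⁻¹ : Aˣ) = x := inv_inv x
    have e1 : (((x⁻¹ ^ 2)⁻¹ : Aˣ) : A) = X ^ 2 := by
      rw [inv_pow, inv_inv, Units.val_pow_eq_pow_val]
    have e2 : ((x⁻¹ ^ 2 : Aˣ) : A) = X' ^ 2 := by
      rw [Units.val_pow_eq_pow_val]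
    apply ext2 <;> simp only [hn, hk, mul00, mul01, mul10, mul11, inv00, inv01, inv10, inv11,
      tr00, tr01, tr10, tr11, key, ← ha, ← hb, ← hc, ← hdd, ← hX, ← hX', e1, e2]
    · linear_combination -(a * d - a ^ 2 * c * y) * X * X' * hx + X' ^ 2 * (a * d - a ^ 2 * c * y) * hy
        + X' ^ 2 * hd
    · linear_combination (a * c + a * y * c ^ 2) * hx - a * c * hy
    · linear_combination (a * d * (1 + y * c)) * hx - a * d * hy + X ^ 2 * hd
  obtain ⟨z, hz⟩ := hnn
  have h1 : n * up 1 * n⁻¹ * (up 1)⁻¹ ∈ N := by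
    have : n * up 1 * n⁻¹ * (up 1)⁻¹ = n * (up 1 * n⁻¹ * (up 1)⁻¹) := by group
    rw [this]
    exact N.mul_mem hnN (hN.conj_mem _ (N.inv_mem hnN) _)
  rw [hz, tr_conj, up_inv, up_mul] at h1
  convert h1 using 2
  push_cast
  ring


theorem di_up (hN : N.Normal) {z : A} (hz : up z ∈ N) (u : Aˣ) : up ((u : A) ^ 2 * z) ∈ N := by
  rw [← tr_conj u 0 z]
  exact hN.conj_mem _ hz _

theorem up_sub {x y : A} (hx : up x ∈ N) (hy : up y ∈ N) : up (x - y) ∈ N := by
  have : up (x - y) = up x * (up y)⁻¹ := by rw [up_inv, up_mul]; congr 1; ring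
  rw [this]
  exact N.mul_mem hx (N.inv_mem hy)

/-- the ideal generated by `4 q z`, where `1 + q t` is a unit for all `t` -/
theorem up_ideal (hN : N.Normal) {q : A} (hq : ∀ t : A, ∃ u : Aˣ, (u : A) = 1 + q * t) {z : A}
    (hz : up z ∈ N) (t : A) : up (4 * q * z * t) ∈ N := by
  obtain ⟨u, hu⟩ := hq t
  obtain ⟨v, hv⟩ := hq (-t)
  have h := up_sub (di_up hN hz u) (di_up hN hz v)
  rw [hu, hv] at h
  convert h using 2
  ring

theorem lo_ideal (hN : N.Normal) {w : A} (hw : ∀ t : A, up (w * t) ∈ N) (t : A) :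
    lo (w * t) ∈ N := by
  have h := hN.conj_mem _ (hw (-t)) we
  rw [we_conj] at h
  convert h using 2
  ring

/-- A normal subgroup which contains the elementary matrices with entries in `w A` contains all
matrices which are congruent to `1` modulo `w ^ 2`. -/
theorem congr_mem (hN : N.Normal) {w : A} (hw : ∀ t : A, up (w * t) ∈ N)
    (hunit : ∀ t : A, ∃ u : Aˣ, (u : A) = 1 + w * t) (g : SL A)
    (h00 : w ^ 2 ∣ g 0 0 - 1) (h01 : w ^ 2 ∣ g 0 1) (h10 : w ^ 2 ∣ g 1 0) : g ∈ N := by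
  obtain ⟨a, ha⟩ := h00
  obtain ⟨b, hb⟩ := h01
  obtain ⟨c, hc⟩ := h10
  obtain ⟨u, hu⟩ := hunit (w * a)
  have hui : (u : A) * ((u⁻¹ : Aˣ) : A) = 1 := u.mul_inv
  have hd := det2 g
  have hw' := lo_ideal hN hw
  have hua : g 0 0 = (u : A) := by rw [hu]; linear_combination ha
  -- the diagonal part
  have hdi : tr u 0 ∈ N := by
    have e : tr u 0 = lo (w * (-a * ((u⁻¹ : Aˣ) : A))) * up (w * 1) * lo (w * a) *
        up (w * (-((u⁻¹ : Aˣ) : A))) := by
      set u' : A := ((u⁻¹ : Aˣ) : A) with hu'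
      apply ext2 <;> simp only [mul00, mul01, mul10, mul11, up00, up01, up10, up11, lo00, lo01,
        lo10, lo11, tr00, tr01, tr10, tr11, ← hu']
      · linear_combination hu
      · rw [hu] at hui; linear_combination w * hui
      · rw [hu] at hui; linear_combination w * a * hui
      · rw [hu] at hui; linear_combination (1 - w ^ 2 * a * u') * hui
    rw [e]
    exact N.mul_mem (N.mul_mem (N.mul_mem (hw' _) (hw _)) (hw' _)) (hw _)
  have e : g = lo (w * (w * c * ((u⁻¹ : Aˣ) : A))) * tr u 0 * up (w * (w * b * ((u⁻¹ : Aˣ) : A))) := by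
    set u' : A := ((u⁻¹ : Aˣ) : A) with hu'
    rw [hua, hb, hc] at hd
    apply ext2 <;> simp only [mul00, mul01, mul10, mul11, up00, up01, up10, up11, lo00, lo01,
        lo10, lo11, tr00, tr01, tr10, tr11, ← hu', hua, hb, hc]
    · ring
    · linear_combination -w ^ 2 * b * hui
    · linear_combination -w ^ 2 * c * hui
    · linear_combination u' * hd - (g 1 1 + u' * w ^ 4 * c * b) * hui
  rw [e]
  exact N.mul_mem (N.mul_mem (hw' _) hdi) (hw _)


section padic

variable (p : ℕ) [Fact p.Prime]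

/-- `1 + p t` is a unit of `ℤ_p` -/
theorem unit_p (t : ℤ_[p]) : ∃ u : ℤ_[p]ˣ, (u : ℤ_[p]) = 1 + (p : ℤ_[p]) * t := by
  have h : IsUnit (1 + (p : ℤ_[p]) * t) := by
    apply IsLocalRing.isUnit_of_mem_nonunits_one_sub_self
    have e : 1 - (1 + (p : ℤ_[p]) * t) = -((p : ℤ_[p]) * t) := by ring
    rw [e, mem_nonunits_iff, IsUnit.neg_iff]
    intro h
    exact (PadicInt.prime_p (p := p)).not_isUnit (isUnit_of_mul_isUnit_left h)
  exact ⟨h.unit, h.unit_spec⟩

variable {p}

/-- a noncentral matrix has a conjugate whose lower left entry is not zero -/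
theorem exists_conj (g : SL ℤ_[p]) (hg : g ≠ 1) (hg' : g ≠ -1) : ∃ k : SL ℤ_[p],
    (k * g * k⁻¹) 1 0 ≠ 0 := by
  by_contra hcon
  push Not at hcon
  have h1 := hcon 1
  have h2 := hcon we
  have h3 := hcon (lo 1)
  simp only [mul00, mul01, mul10, mul11, inv00, inv01, inv10, inv11, lo00, lo01,
        lo10, lo11, we00, we01, we10, we11] at h2 h3
  rw [one_mul, inv_one, mul_one] at h1
  have hb : g 0 1 = 0 := by linear_combination -h2
  have hd := det2 g
  have h4 : g 0 0 = g 1 1 := by linear_combination h3 - h1 + hb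
  rw [hb, h4, zero_mul, sub_zero, mul_self_eq_one_iff] at hd
  rcases hd with hd | hd
  · apply hg
    apply ext2 <;> simp [h1, hb, h4, hd]
  · apply hg'
    apply ext2 <;> simp [h1, hb, h4, hd]

/-- every noncentral normal subgroup contains all matrices congruent to `1` modulo some `w ≠ 0` -/
theorem main (N : Subgroup (SL ℤ_[p])) (hN : N.Normal) (g : SL ℤ_[p]) (hgN : g ∈ N) (hg : g ≠ 1)
    (hg' : g ≠ -1) : ∃ w : ℤ_[p], w ≠ 0 ∧ ∀ h : SL ℤ_[p], w ∣ h 0 0 - 1 → w ∣ h 0 1 → w ∣ h 1 0 →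
      h ∈ N := by
  have hp0 : (p : ℤ_[p]) ≠ 0 := by exact_mod_cast (Fact.out : p.Prime).ne_zero
  have h4 : (4 : ℤ_[p]) ≠ 0 := by norm_num
  obtain ⟨k, hk⟩ := exists_conj g hg hg'
  set g' := k * g * k⁻¹ with hg'def
  have hg'N : g' ∈ N := hN.conj_mem g hgN k
  set c := g' 1 0 with hc
  obtain ⟨x, hx⟩ := unit_p p (4 * c)
  have hup := exists_up hN hg'N x ((4 * p) * (2 + 4 * p * c)) (by
    rw [hx, ← hc]
    ring)
  set X := (x : ℤ_[p]) with hX
  set X' := ((x⁻¹ : ℤ_[p]ˣ) : ℤ_[p]) with hX'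
  have hXX : X * X' = 1 := x.mul_inv
  have hne : X' ^ 4 - 1 ≠ 0 := by
    intro h0
    have h1 : X ^ 4 = 1 := by
      have : X ^ 4 * X' ^ 4 = 1 := by rw [← mul_pow, hXX, one_pow]
      rw [sub_eq_zero.1 h0, mul_one] at this
      exact this
    have h2 : (8 * (p : ℤ_[p]) * c) * ((1 + p * (2 * c)) * (2 * (1 + p * (4 * c + 8 * p * c ^ 2)))) = 0 := by
      rw [hx] at h1
      linear_combination h1
    obtain ⟨u, hu⟩ := unit_p p (2 * c)
    obtain ⟨v, hv⟩ := unit_p p (4 * c + 8 * p * c ^ 2)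
    rw [← hu, ← hv] at h2
    have h8 : (8 : ℤ_[p]) ≠ 0 := by norm_num
    have h22 : (2 : ℤ_[p]) ≠ 0 := by norm_num
    exact mul_ne_zero (mul_ne_zero (mul_ne_zero h8 hp0) hk)
      (mul_ne_zero u.ne_zero (mul_ne_zero h22 v.ne_zero)) h2
  set z := X' ^ 4 - 1 with hz
  set w := 4 * (p : ℤ_[p]) * z with hw
  have hw0 : w ≠ 0 := mul_ne_zero (mul_ne_zero h4 hp0) hne
  refine ⟨w ^ 2, pow_ne_zero 2 hw0, fun h h00 h01 h10 => ?_⟩
  refine congr_mem hN (fun t => up_ideal hN (unit_p p) hup t) (fun t => ?_) h h00 h01 h10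
  obtain ⟨u, hu⟩ := unit_p p (4 * z * t)
  exact ⟨u, by rw [hu]; ring⟩

/-- the principal congruence subgroup -/
noncomputable def Ga (p : ℕ) [Fact p.Prime] (m : ℕ) : Subgroup (SL ℤ_[p]) :=
  (Matrix.SpecialLinearGroup.map (n := Fin 2) (PadicInt.toZModPow m : ℤ_[p] →+* ZMod (p ^ m))).ker

theorem toZ_eq {m : ℕ} {x y : ℤ_[p]} :
    (PadicInt.toZModPow m : ℤ_[p] →+* ZMod (p ^ m)) x = PadicInt.toZModPow m y ↔
      (p : ℤ_[p]) ^ m ∣ x - y := by
  rw [← sub_eq_zero, ← map_sub, ← RingHom.mem_ker, PadicInt.ker_toZModPow,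
    Ideal.mem_span_singleton]

theorem mem_Ga {m : ℕ} {g : SL ℤ_[p]} : g ∈ Ga p m ↔ ∀ i j, (p : ℤ_[p]) ^ m ∣ g i j - (1 : SL ℤ_[p]) i j := by
  unfold Ga
  rw [MonoidHom.mem_ker]
  constructor
  · intro h i j
    have h1 := congrArg (fun M : SL (ZMod (p ^ m)) => M i j) h
    rw [← map_one (Matrix.SpecialLinearGroup.map (n := Fin 2)
      (PadicInt.toZModPow m : ℤ_[p] →+* ZMod (p ^ m)))] at h1
    exact toZ_eq.1 h1
  · intro h
    rw [← map_one (Matrix.SpecialLinearGroup.map (n := Fin 2)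
      (PadicInt.toZModPow m : ℤ_[p] →+* ZMod (p ^ m)))]
    ext i j
    exact toZ_eq.2 (h i j)

instance (m : ℕ) : (Ga p m).FiniteIndex := by
  haveI : NeZero (p ^ m) := ⟨pow_ne_zero m (Fact.out : p.Prime).ne_zero⟩
  unfold Ga
  infer_instance

theorem isClosed_Ga (m : ℕ) : IsClosed (Ga p m : Set (SL ℤ_[p])) := by
  have e : (Ga p m : Set (SL ℤ_[p])) = ⋂ i : Fin 2, ⋂ j : Fin 2,
      {g : SL ℤ_[p] | ‖g i j - (1 : SL ℤ_[p]) i j‖ ≤ (p : ℝ) ^ (-m : ℤ)} := by
    ext g
    simp only [SetLike.mem_coe, mem_Ga, Set.mem_iInter, Set.mem_ofPred_eq,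
      PadicInt.norm_le_pow_iff_mem_span_pow, Ideal.mem_span_singleton]
  rw [e]
  refine isClosed_iInter fun i => isClosed_iInter fun j => ?_
  refine isClosed_le (Continuous.norm ?_) continuous_const
  refine Continuous.sub ?_ continuous_const
  exact (continuous_apply_apply i j).comp continuous_subtype_val

theorem isOpen_Ga (m : ℕ) : IsOpen (Ga p m : Set (SL ℤ_[p])) :=
  Subgroup.isOpen_of_isClosed_of_finiteIndex _ (isClosed_Ga m)

instance : CompactSpace (SL ℤ_[p]) := by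
  haveI : CompactSpace (Matrix (Fin 2) (Fin 2) ℤ_[p]) :=
    inferInstanceAs (CompactSpace (Fin 2 → Fin 2 → ℤ_[p]))
  exact (Matrix.SpecialLinearGroup.isClosedEmbedding_val (n := Fin 2) (R := ℤ_[p])).compactSpace

instance : TopologicalSpace.MetrizableSpace (SL ℤ_[p]) := by
  haveI : TopologicalSpace.MetrizableSpace (Matrix (Fin 2) (Fin 2) ℤ_[p]) :=
    inferInstanceAs (TopologicalSpace.MetrizableSpace (Fin 2 → Fin 2 → ℤ_[p]))
  exact (Matrix.SpecialLinearGroup.isClosedEmbedding_val (n := Fin 2)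
    (R := ℤ_[p])).isEmbedding.metrizableSpace

instance : TotallyDisconnectedSpace (SL ℤ_[p]) := by
  haveI : TotallyDisconnectedSpace (Matrix (Fin 2) (Fin 2) ℤ_[p]) :=
    inferInstanceAs (TotallyDisconnectedSpace (Fin 2 → Fin 2 → ℤ_[p]))
  exact (Matrix.SpecialLinearGroup.isClosedEmbedding_val (n := Fin 2)
    (R := ℤ_[p])).isEmbedding.isTotallyDisconnected_range.1 (isTotallyDisconnected_of_totallyDisconnectedSpace _)

instance : NonarchimedeanGroup (SL ℤ_[p]) where
  is_nonarchimedean := by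
    intro U hU
    obtain ⟨V, hVU, hV, h1⟩ := mem_nhds_iff.1 hU
    obtain ⟨H, hH⟩ := ProfiniteGrp.exist_openNormalSubgroup_sub_open_nhds_of_one hV h1
    exact ⟨H.toOpenSubgroup, hH.trans hVU⟩

instance : Infinite (SL ℤ_[p]) :=
  Infinite.of_injective (fun n : ℕ => (up (n : ℤ_[p]) : SL ℤ_[p])) fun a b h => by
    have := congrArg (fun g : SL ℤ_[p] => g 0 1) h
    simpa using this

instance : Uncountable (SL ℤ_[p]) := by
  by_contra hcon
  rw [not_uncountable_iff] at hcon
  obtain ⟨g, x, hx⟩ := nonempty_interior_of_iUnion_of_closed (X := SL ℤ_[p])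
    (f := fun g : SL ℤ_[p] => {g}) (fun g => isClosed_singleton) (by
      ext x; simp)
  have h1 : IsOpen ({g} : Set (SL ℤ_[p])) := by
    have h2 : interior ({g} : Set (SL ℤ_[p])) = {g} := by
      refine Set.Subset.antisymm interior_subset ?_
      rintro y rfl
      have := interior_subset hx
      rw [Set.mem_singleton_iff] at this
      rwa [this] at hx
    rw [← h2]
    exact isOpen_interior
  have h3 : IsOpen ({1} : Set (SL ℤ_[p])) := by
    have := (Homeomorph.mulLeft g⁻¹).isOpenMap _ h1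
    simpa using this
  haveI := discreteTopology_of_isOpen_singleton_one h3
  haveI : Finite (SL ℤ_[p]) := finite_of_compact_of_discrete
  exact not_finite (SL ℤ_[p])

end padic

/-- **Negative answers to Q1 and Q2.**  Let `p` be a prime.  Then `SL₂(ℤ_p)` is an uncountable
compact metrizable non-archimedean group, and each of its normal subgroups, Borel or not, is finite
or open of finite index.  In particular no normal subgroup of any kind is uncountable and of
uncountable index. -/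
theorem result (p : ℕ) [Fact p.Prime] :
    IsTopologicalGroup (Matrix.SpecialLinearGroup (Fin 2) ℤ_[p]) ∧
    CompactSpace (Matrix.SpecialLinearGroup (Fin 2) ℤ_[p]) ∧
    TopologicalSpace.MetrizableSpace (Matrix.SpecialLinearGroup (Fin 2) ℤ_[p]) ∧
    (∀ U ∈ 𝓝 (1 : Matrix.SpecialLinearGroup (Fin 2) ℤ_[p]),
      ∃ V : Subgroup (Matrix.SpecialLinearGroup (Fin 2) ℤ_[p]),
        IsOpen (V : Set (Matrix.SpecialLinearGroup (Fin 2) ℤ_[p])) ∧
        (V : Set (Matrix.SpecialLinearGroup (Fin 2) ℤ_[p])) ⊆ U) ∧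
    Uncountable (Matrix.SpecialLinearGroup (Fin 2) ℤ_[p]) ∧
    (∀ N : Subgroup (Matrix.SpecialLinearGroup (Fin 2) ℤ_[p]), N.Normal →
      Finite N ∨ (IsOpen (N : Set (Matrix.SpecialLinearGroup (Fin 2) ℤ_[p])) ∧
        Finite (Matrix.SpecialLinearGroup (Fin 2) ℤ_[p] ⧸ N))) ∧
    ¬ ∃ N : Subgroup (Matrix.SpecialLinearGroup (Fin 2) ℤ_[p]), N.Normal ∧
      Uncountable N ∧ Uncountable (Matrix.SpecialLinearGroup (Fin 2) ℤ_[p] ⧸ N) := by
  have key : ∀ N : Subgroup (Matrix.SpecialLinearGroup (Fin 2) ℤ_[p]), N.Normal →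
      Finite N ∨ (IsOpen (N : Set (Matrix.SpecialLinearGroup (Fin 2) ℤ_[p])) ∧
        Finite (Matrix.SpecialLinearGroup (Fin 2) ℤ_[p] ⧸ N)) := by
    intro N hN
    by_cases h : ∃ g ∈ N, g ≠ 1 ∧ g ≠ -1
    · right
      obtain ⟨g, hgN, hg, hg'⟩ := h
      obtain ⟨w, hw, hall⟩ := main N hN g hgN hg hg'
      have hle : Ga p w.valuation ≤ N := by
        intro h hh
        rw [mem_Ga] at hh
        have hdvd : w ∣ (p : ℤ_[p]) ^ w.valuation := by
          have e := PadicInt.unitCoeff_spec hw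
          refine ⟨((PadicInt.unitCoeff hw)⁻¹ : ℤ_[p]ˣ), ?_⟩
          have h1 : (PadicInt.unitCoeff hw : ℤ_[p]) * (((PadicInt.unitCoeff hw)⁻¹ : ℤ_[p]ˣ) : ℤ_[p]) = 1 :=
            Units.mul_inv _
          linear_combination (-(((PadicInt.unitCoeff hw)⁻¹ : ℤ_[p]ˣ) : ℤ_[p])) * e
            - (p : ℤ_[p]) ^ w.valuation * h1
        refine hall h (hdvd.trans ?_) (hdvd.trans ?_) (hdvd.trans ?_)
        · simpa using hh 0 0
        · simpa using hh 0 1
        · simpa using hh 1 0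
      have : N.FiniteIndex := Subgroup.finiteIndex_of_le hle
      exact ⟨Subgroup.isOpen_mono hle (isOpen_Ga _), inferInstance⟩
    · left
      push Not at h
      have : (N : Set (Matrix.SpecialLinearGroup (Fin 2) ℤ_[p])) ⊆ {1, -1} := by
        intro g hg
        by_cases h1 : g = 1
        · exact Or.inl h1
        · exact Or.inr (h g hg h1)
      exact ((Set.toFinite _).subset this).to_subtype
  refine ⟨inferInstance, inferInstance, inferInstance, fun U hU => ?_, inferInstance, key, ?_⟩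
  · obtain ⟨V, hV⟩ := NonarchimedeanGroup.is_nonarchimedean U hU
    exact ⟨V.toSubgroup, V.isOpen, hV⟩
  · rintro ⟨N, hN, h1, h2⟩
    rcases key N hN with h | ⟨-, h⟩
    · exact h1.not_countable inferInstance
    · exact h2.not_countable inferInstance

end Pool.Agent.Results.MP_847604_al.SL2Zp
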